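import Pool.Agent.Q92.DT.Bdd

/-!
# A multiplier of the Dirichlet space which is uniformly Kreiss bounded and not power bounded

`T` is a tree of thin tubes in the right half plane which approach the imaginary axis: a tube of level `j` has
width about `128^(-j)` and length about `16^(-j)`, it lies at the distance about `16^(-j)` from the imaginary axis and has
16 children. Let `ψ` be a conformal map of the disc onto `T` and `φ = (1 - ψ) / (1 + ψ)`. Then `M_φ` is uniformly Kreiss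
bounded on the Dirichlet space: the derivative of the mean `M_n(λφ)` is concentrated on one tube, and the
mean of `|g|^2` over a tube of level `j` is at most `C 8^j ‖g‖^2`. But there are `16^j` tubes of level `j`, and
`‖φ^n‖^2 ≥ c 2^j` for `n = 16^j`.
-/

set_option autoImplicit false

open MeasureTheory Set Filter Topology Metric
open scoped ENNReal

namespace Pool.Agent.Results.MP_f04e08_an.KreissNotPowerBounded

open Pool.Agent.Q92.DT

/-- The square of the norm of the Dirichlet space: `|f(0)|^2 + (1/π) ∫_𝔻 |f'|^2 dA`. -/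
noncomputable def dirNormSq (f : ℂ → ℂ) : ℝ≥0∞ :=
  ‖f 0‖ₑ ^ 2 + ENNReal.ofReal (1 / Real.pi) * ∫⁻ z in ball (0 : ℂ) 1, ‖deriv f z‖ₑ ^ 2

/-- `f` belongs to the Dirichlet space: it is analytic on the unit disc and has finite norm. -/
def InDirichlet (f : ℂ → ℂ) : Prop := DifferentiableOn ℂ f (ball 0 1) ∧ dirNormSq f < ⊤

/-- The multiplication operator `f ↦ u f` maps the Dirichlet space to itself, with norm at most `C`. -/
def MulNormLe (C : ℝ) (u : ℂ → ℂ) : Prop :=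
  ∀ f, InDirichlet f → InDirichlet (fun z => u z * f z) ∧
    dirNormSq (fun z => u z * f z) ≤ ENNReal.ofReal (C ^ 2) * dirNormSq f

/-- `φ` is a multiplier of the Dirichlet space. -/
def IsMultiplier (φ : ℂ → ℂ) : Prop := ∃ C : ℝ, MulNormLe C φ

/-- `M_φ` is power bounded. -/
def PowerBounded (φ : ℂ → ℂ) : Prop := ∃ C : ℝ, ∀ n : ℕ, MulNormLe C (fun z => φ z ^ n)

/-- `M_φ` is uniformly Kreiss bounded: the norms of the operators `(1 / (n + 1)) ∑_{k ≤ n} (λ M_φ)^k`, `|λ| = 1`, are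
bounded. -/
def UniformlyKreissBounded (φ : ℂ → ℂ) : Prop := ∃ C : ℝ, ∀ (n : ℕ) (l : ℂ), ‖l‖ = 1 →
  MulNormLe C (fun z => (1 / ((n : ℂ) + 1)) * ∑ k ∈ Finset.range (n + 1), (l * φ z) ^ k)

theorem dirNormSq_eq : dirNormSq = normSq := rfl

/-- lower bound for the powers on a tube -/
theorem power_low {j k : ℕ} {h : ℂ} (hk : k < 16 ^ (j + 1)) (hh : h ∈ V (j + 1) k) :
    (16 ^ j : ℝ) ^ 2 / 128 ≤ ‖deriv (fun h => mp h ^ (16 ^ j)) h‖ ^ 2 := by
  have hD : h ∈ Dom := P_sub hk (V_sub _ _ hh)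
  obtain ⟨n, hn⟩ : ∃ n : ℕ, n = 16 ^ j := ⟨_, rfl⟩
  have hn1 : 1 ≤ n := by rw [hn]; exact Nat.one_le_pow _ _ (by norm_num)
  have hnr : (n : ℝ) * r (j + 1) = 1 / 16 := by
    rw [hn]
    unfold r
    push_cast
    rw [pow_succ, ← mul_assoc, ← mul_pow]
    norm_num
  obtain ⟨h1, h2, h3, h4⟩ := Dom_coord hD
  have hre : h.re ≤ 9 / 8 * r (j + 1) := by
    have e1 := (mem_V.1 hh).1.2
    have e2 := w_le (j + 1)
    linarith
  have hcast : (16 ^ j : ℝ) = n := by rw [hn]; push_cast; rfl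
  rw [hcast, ← hn]
  have hd : deriv (fun h => mp h ^ n) h = n * mp h ^ (n - 1) * (-2 / (1 + h) ^ 2) :=
    ((hasDerivAt_mp hD).fun_pow n).deriv
  rw [hd, norm_mul, norm_mul, norm_pow, Complex.norm_natCast]
  -- the size of `1 + h`
  have e1 : ‖(1 : ℂ) + h‖ ^ 2 = (1 + h.re) ^ 2 + h.im ^ 2 := by
    rw [Complex.sq_norm, Complex.normSq_apply]
    simp
    ring
  have e2 : ‖(1 : ℂ) - h‖ ^ 2 = (1 - h.re) ^ 2 + h.im ^ 2 := by
    rw [Complex.sq_norm, Complex.normSq_apply]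
    simp
    ring
  have hr1 : r (j + 1) ≤ 1 / 16 := by
    have := r_anti (Nat.le_add_left 1 j)
    have h1' : r 1 = 1 / 16 := by simp [r]
    rwa [h1'] at this
  have hs : h.re ≤ 1 / 8 := by linarith
  have e3 : ‖(1 : ℂ) + h‖ ^ 2 ≤ 4 := by
    rw [e1]
    nlinarith
  have e4 : 1 ≤ ‖(1 : ℂ) + h‖ ^ 2 := by
    rw [e1]
    nlinarith [sq_nonneg h.im, sq_nonneg h.re]
  have hm : 1 - 5 * r (j + 1) ≤ ‖mp h‖ ^ 2 := by
    unfold mp
    rw [norm_div, div_pow, le_div_iff₀ (by positivity), e2]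
    have e5 : (1 - h.re) ^ 2 + h.im ^ 2 = ‖(1 : ℂ) + h‖ ^ 2 - 4 * h.re := by rw [e1]; ring
    rw [e5]
    have e6 : 4 * h.re ≤ 5 * r (j + 1) * 1 := by linarith
    have e7 : 5 * r (j + 1) * 1 ≤ 5 * r (j + 1) * ‖(1 : ℂ) + h‖ ^ 2 :=
      mul_le_mul_of_nonneg_left e4 (by have := r_pos (j + 1); positivity)
    linarith
  have hpow : 1 / 2 ≤ (‖mp h‖ ^ (n - 1)) ^ 2 := by
    rw [← pow_mul, mul_comm (n - 1) 2, pow_mul]
    have hr0 := r_pos (j + 1)
    have f1 : (1 - 5 * r (j + 1)) ^ (n - 1) ≤ (‖mp h‖ ^ 2) ^ (n - 1) := pow_le_pow_left₀ (by linarith) hm _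
    have f2 := one_add_mul_le_pow (a := -(5 * r (j + 1))) (by linarith) (n - 1)
    have f3 : ((n - 1 : ℕ) : ℝ) ≤ n := by exact_mod_cast Nat.sub_le n 1
    have f4 : ((n - 1 : ℕ) : ℝ) * (5 * r (j + 1)) ≤ 5 / 16 := by
      calc ((n - 1 : ℕ) : ℝ) * (5 * r (j + 1)) ≤ n * (5 * r (j + 1)) := by gcongr
        _ = 5 * (n * r (j + 1)) := by ring
        _ = 5 / 16 := by rw [hnr]; norm_num
    have f5 : 1 + -(5 * r (j + 1)) = 1 - 5 * r (j + 1) := by ring
    rw [f5] at f2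
    linarith
  have hm' : 1 / 4 ≤ ‖-2 / (1 + h) ^ 2‖ ^ 2 := by
    rw [norm_div, norm_pow, norm_neg, div_pow]
    have : ‖(2 : ℂ)‖ = 2 := by simp
    rw [this, le_div_iff₀ (by positivity)]
    nlinarith
  have hn0 : (0 : ℝ) ≤ (n : ℝ) ^ 2 := by positivity
  calc (n : ℝ) ^ 2 / 128 ≤ (n : ℝ) ^ 2 * (1 / 2) * (1 / 4) := by nlinarith
    _ ≤ (n : ℝ) ^ 2 * (‖mp h‖ ^ (n - 1)) ^ 2 * ‖-2 / (1 + h) ^ 2‖ ^ 2 := by gcongr
    _ = _ := by ring

/-- the powers have large norm -/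
theorem norm_power {ψ ξ : ℂ → ℂ} (h : IsMap ψ ξ) (j : ℕ) :
    ENNReal.ofReal (2 ^ j / 10 ^ 9) ≤ ∫⁻ z in ball (0 : ℂ) 1, ‖deriv (fun z => mp (ψ z) ^ (16 ^ j)) z‖ₑ ^ 2 := by
  have hcov := h.cov (fun w => ‖deriv (fun h => mp h ^ (16 ^ j)) w‖ₑ ^ 2)
  have e1 : ∫⁻ z in ball (0 : ℂ) 1, ‖deriv (fun z => mp (ψ z) ^ (16 ^ j)) z‖ₑ ^ 2 =
      ∫⁻ z in ball (0 : ℂ) 1, ‖deriv ψ z‖ₑ ^ 2 * ‖deriv (fun h => mp h ^ (16 ^ j)) (ψ z)‖ₑ ^ 2 := by
    refine setLIntegral_congr_fun measurableSet_ball fun z hz => ?_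
    have h1 : HasDerivAt (fun h => mp h ^ (16 ^ j)) (deriv (fun h => mp h ^ (16 ^ j)) (ψ z)) (ψ z) :=
      ((hasDerivAt_mp (h.mψ z hz)).fun_pow _).differentiableAt.hasDerivAt
    have h2 : HasDerivAt ψ (deriv ψ z) z := (h.dψ.differentiableAt (isOpen_ball.mem_nhds hz)).hasDerivAt
    have h3 := h1.comp z h2
    have h4 : deriv (fun z => mp (ψ z) ^ (16 ^ j)) z = deriv (fun h => mp h ^ (16 ^ j)) (ψ z) * deriv ψ z := h3.deriv
    rw [h4, enorm_mul, mul_pow, mul_comm]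
  rw [e1, ← hcov]
  -- the disjoint tubes
  have hsub : (⋃ k ∈ Finset.range (16 ^ (j + 1)), V (j + 1) k) ⊆ Dom := by
    intro z hz
    simp only [mem_iUnion, Finset.mem_range] at hz
    obtain ⟨k, hk, hz⟩ := hz
    exact P_sub hk (V_sub _ _ hz)
  refine le_trans ?_ (lintegral_mono_set hsub)
  rw [lintegral_biUnion_finset (fun k _ k' _ hkk => ?_) (fun k _ => (isOpen_V _ _).measurableSet)]
  · have hw := w_pos (j + 1)
    have hr := r_pos (j + 1)
    have hone : ∀ k ∈ Finset.range (16 ^ (j + 1)), ENNReal.ofReal ((16 ^ j : ℝ) ^ 2 / 128 * (r (j + 1) / 2 * w (j + 1))) ≤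
        ∫⁻ z in V (j + 1) k, ‖deriv (fun h => mp h ^ (16 ^ j)) z‖ₑ ^ 2 := by
      intro k hk
      rw [Finset.mem_range] at hk
      calc ENNReal.ofReal ((16 ^ j : ℝ) ^ 2 / 128 * (r (j + 1) / 2 * w (j + 1)))
          ≤ ENNReal.ofReal ((16 ^ j : ℝ) ^ 2 / 128) * volume (V (j + 1) k) := by
            rw [ENNReal.ofReal_mul (by positivity)]
            gcongr
            unfold V
            have e3 := r_succ (j + 1)
            rw [vol_rect (by have := r_pos (j + 1 + 1); nlinarith)]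
            apply ENNReal.ofReal_le_ofReal
            have e2 : c (j + 1) k + w (j + 1) - c (j + 1) k = w (j + 1) := by ring
            rw [e2]
            apply mul_le_mul_of_nonneg_right _ hw.le
            linarith
        _ = ∫⁻ z in V (j + 1) k, ENNReal.ofReal ((16 ^ j : ℝ) ^ 2 / 128) := by rw [setLIntegral_const]
        _ ≤ _ := by
            refine setLIntegral_mono' (isOpen_V _ _).measurableSet fun z hz => ?_
            rw [enorm_sq_eq]
            exact ENNReal.ofReal_le_ofReal (power_low hk hz)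
    refine le_trans ?_ (Finset.sum_le_sum hone)
    rw [Finset.sum_const, Finset.card_range, nsmul_eq_mul]
    have hc : ((16 ^ (j + 1) : ℕ) : ℝ≥0∞) = ENNReal.ofReal (16 ^ (j + 1)) := by
      rw [← ENNReal.ofReal_natCast]
      push_cast
      rfl
    rw [hc, ← ENNReal.ofReal_mul (by positivity)]
    apply ENNReal.ofReal_le_ofReal
    have e4 : (16 : ℝ) ^ (j + 1) * r (j + 1) = 1 := by
      unfold r
      rw [← mul_pow]
      norm_num
    have e5 : (16 ^ j : ℝ) ^ 2 * w (j + 1) = 2 ^ j / 131072 := by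
      unfold w
      have h1 : ((16 : ℝ) ^ j) ^ 2 = 256 ^ j := by
        rw [← pow_mul, mul_comm, pow_mul]
        norm_num
      have h2 : (1 / 128 : ℝ) ^ (j + 1) = (1 / 128) ^ j * (1 / 128) := pow_succ _ _
      have h3 : (256 : ℝ) ^ j * (1 / 128) ^ j = 2 ^ j := by
        rw [← mul_pow]
        norm_num
      rw [h1, h2]
      calc (256 : ℝ) ^ j * (1 / 1024 * ((1 / 128) ^ j * (1 / 128))) = (256 ^ j * (1 / 128) ^ j) / 131072 := by ring
        _ = 2 ^ j / 131072 := by rw [h3]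
    have e6 : (16 : ℝ) ^ (j + 1) * ((16 ^ j : ℝ) ^ 2 / 128 * (r (j + 1) / 2 * w (j + 1))) =
        ((16 : ℝ) ^ (j + 1) * r (j + 1)) * ((16 ^ j : ℝ) ^ 2 * w (j + 1)) / 256 := by ring
    rw [e6, e4, e5]
    have : (0 : ℝ) < 2 ^ j := by positivity
    rw [one_mul, div_div]
    apply div_le_div_of_nonneg_left this.le (by norm_num)
    norm_num
  · rw [Function.onFun, Set.disjoint_left]
    intro z hz hz'
    exact hkk (P_same (V_sub _ _ hz) (V_sub _ _ hz'))

/-- There is a multiplier `φ` of the Dirichlet space such that `M_φ` is uniformly Kreiss bounded and not power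
bounded. -/
theorem result : ∃ φ : ℂ → ℂ, DifferentiableOn ℂ φ (ball 0 1) ∧ IsMultiplier φ ∧ UniformlyKreissBounded φ ∧
    ¬ PowerBounded φ := by
  obtain ⟨ψ, ξ, h⟩ := exists_map
  obtain ⟨K, hK⟩ : ∃ K, TreeConst K := tree_est
  obtain ⟨C, hC0, hC⟩ := wt
  have hK0 := hK.1
  have hmpd : DifferentiableOn ℂ mp Dom := fun z hz => (hasDerivAt_mp hz).differentiableAt.differentiableWithinAt
  have hφd : DifferentiableOn ℂ (fun z => mp (ψ z)) (ball 0 1) := hmpd.comp h.dψ h.mψ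
  refine ⟨fun z => mp (ψ z), hφd, ?_, ?_, ?_⟩
  · -- the multiplier
    obtain ⟨b, hb0, hb, hbs⟩ := hC 1 1 (by simp)
    have hA : ∀ z ∈ Dom, HasDerivAt (A 1 1) ((1 / 2) * (-2 / (1 + z) ^ 2)) z := by
      intro z hz
      have h1 := ((hasDerivAt_mp hz).const_add 1).const_mul (1 / 2 : ℂ)
      refine h1.congr_of_eventuallyEq (Eventually.of_forall fun y => ?_)
      unfold A
      rw [Finset.sum_range_succ, Finset.sum_range_succ, Finset.sum_range_zero]
      simp
      norm_num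
    refine ⟨Real.sqrt (2 * (K * (4 * C)) + 2), fun f hf => ?_⟩
    have hbd := bdd h hK hmpd (fun z hz => mp_le hz) (b := fun j k => 4 * b j k)
      (fun j k => by have := hb0 j k; positivity) (fun j k hk z hz => ?_) (C := 4 * C) (fun J => ?_) hf.1 hf.2
    · have hpos : 0 ≤ 2 * (K * (4 * C)) + 2 := by positivity
      have hle : dirNormSq (fun z => mp (ψ z) * f z) ≤
          ENNReal.ofReal (Real.sqrt (2 * (K * (4 * C)) + 2) ^ 2) * dirNormSq f := by
        rw [Real.sq_sqrt hpos]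
        exact hbd
      exact ⟨⟨hφd.mul hf.1, lt_of_le_of_lt hle (ENNReal.mul_lt_top ENNReal.ofReal_lt_top hf.2)⟩, hle⟩
    · have h1 := hb j k hk z hz
      rw [(hA z (P_sub hk hz)).deriv, norm_mul, mul_pow] at h1
      rw [(hasDerivAt_mp (P_sub hk hz)).deriv]
      have h2 : ‖(1 / 2 : ℂ)‖ ^ 2 = 1 / 4 := by norm_num
      rw [h2] at h1
      linarith
    · have h1 := hbs J
      have h2 : ∑ j ∈ Finset.range J, ∑ k ∈ Finset.range (16 ^ j), 4 * b j k * r j ^ 2 =
          4 * ∑ j ∈ Finset.range J, ∑ k ∈ Finset.range (16 ^ j), b j k * r j ^ 2 := by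
        rw [Finset.mul_sum]
        refine Finset.sum_congr rfl fun j _ => ?_
        rw [Finset.mul_sum]
        exact Finset.sum_congr rfl fun k _ => by ring
      rw [h2]
      linarith
  · -- uniformly Kreiss bounded
    refine ⟨Real.sqrt (2 * (K * C) + 2), fun n l hl f hf => ?_⟩
    obtain ⟨b, hb0, hb, hbs⟩ := hC n l hl
    have hAd : DifferentiableOn ℂ (A n l) Dom := fun z hz => (hasDerivAt_A hz).differentiableAt.differentiableWithinAt
    have hbd := bdd h hK hAd (fun z hz => norm_A_le hl hz) hb0 hb hbs hf.1 hf.2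
    have hfun : (fun z => (1 / ((n : ℂ) + 1)) * (∑ k ∈ Finset.range (n + 1), (l * mp (ψ z)) ^ k) * f z) =
        fun z => A n l (ψ z) * f z := by
      funext z
      unfold A
      simp only [mul_pow]
    have hpos : 0 ≤ 2 * (K * C) + 2 := by positivity
    have hle : dirNormSq (fun z => A n l (ψ z) * f z) ≤ ENNReal.ofReal (Real.sqrt (2 * (K * C) + 2) ^ 2) * dirNormSq f := by
      rw [Real.sq_sqrt hpos]
      exact hbd
    rw [hfun]
    exact ⟨⟨(hAd.comp h.dψ h.mψ).mul hf.1, lt_of_le_of_lt hle (ENNReal.mul_lt_top ENNReal.ofReal_lt_top hf.2)⟩, hle⟩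
  · -- not power bounded
    rintro ⟨C', hC'⟩
    have hone : dirNormSq (fun _ => (1 : ℂ)) = 1 := by
      unfold dirNormSq
      simp
    have hin : InDirichlet (fun _ => (1 : ℂ)) := ⟨differentiableOn_const _, by rw [hone]; exact ENNReal.one_lt_top⟩
    have hall : ∀ j : ℕ, (2 : ℝ) ^ j / 10 ^ 9 / 4 ≤ C' ^ 2 := by
      intro j
      have h1 := (hC' (16 ^ j) _ hin).2
      rw [hone, mul_one] at h1
      have h2 : ENNReal.ofReal (1 / Real.pi) * ∫⁻ z in ball (0 : ℂ) 1, ‖deriv (fun z => mp (ψ z) ^ (16 ^ j) * 1) z‖ₑ ^ 2 ≤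
          ENNReal.ofReal (C' ^ 2) := le_trans le_add_self h1
      have h3 : (fun z => mp (ψ z) ^ (16 ^ j) * 1) = fun z => mp (ψ z) ^ (16 ^ j) := by
        funext z
        rw [mul_one]
      rw [h3] at h2
      have h4 : ENNReal.ofReal (1 / 4) ≤ ENNReal.ofReal (1 / Real.pi) := by
        apply ENNReal.ofReal_le_ofReal
        apply one_div_le_one_div_of_le Real.pi_pos
        exact Real.pi_le_four
      have h5 : ENNReal.ofReal (1 / 4) * ENNReal.ofReal (2 ^ j / 10 ^ 9) ≤ ENNReal.ofReal (C' ^ 2) :=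
        le_trans (mul_le_mul' h4 (norm_power h j)) h2
      rw [← ENNReal.ofReal_mul (by norm_num)] at h5
      have h6 := (ENNReal.ofReal_le_ofReal_iff (by positivity)).1 h5
      linarith
    obtain ⟨j, hj⟩ := pow_unbounded_of_one_lt (C' ^ 2 * (4 * 10 ^ 9)) (by norm_num : (1 : ℝ) < 2)
    have := hall j
    rw [div_div, div_le_iff₀ (by norm_num)] at this
    linarith

end Pool.Agent.Results.MP_f04e08_an.KreissNotPowerBounded
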